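import Mathlib
import Pool.Agent.H473R4.Gen
import Pool.Agent.H473R4.Count
import Pool.Agent.H447R2.ML.Spec

set_option autoImplicit false

/-!
# Generalized Wagstaff numbers: almost every amplitude, all bases at once

For an integer `b ≥ 2`, a real `β > 0` and a prime `p` let `W b β p` be the `p`-rough part (the
product, with multiplicity, of the prime factors larger than `p`) of `⌈β * b ^ p⌉`, and let
`N b β n` be the number of primes `p ≤ n` for which `W b β p` is prime.  For `β = 1 / (b + 1)` and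
an odd prime `p` not dividing `b + 1` the integer `W b β p` is `(b ^ p + 1) / (b + 1)` itself.
-/

namespace Pool.Agent.Results.MP_ce8d0c_nt.AlmostEveryAmplitude

open Filter Topology MeasureTheory

/-- The product, with multiplicity, of the prime factors of `m` that are larger than `p`. -/
def roughPart (p m : ℕ) : ℕ := (m.primeFactorsList.filter (fun r => p < r)).prod

/-- The `p`-rough part of `⌈β * b ^ p⌉`. -/
noncomputable def W (b : ℕ) (β : ℝ) (p : ℕ) : ℕ := roughPart p ⌈β * (b : ℝ) ^ p⌉₊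

/-- The number of primes `p ≤ n` for which `W b β p` is prime. -/
noncomputable def N (b : ℕ) (β : ℝ) (n : ℕ) : ℕ :=
  ((Finset.range (n + 1)).filter (fun p => p.Prime ∧ (W b β p).Prime)).card

lemma ceil_shift (g : ℝ) : ⌈g + 1⌉₊ - 1 = ⌈g⌉₊ := by
  rcases le_or_gt 0 g with h | h
  · rw [Nat.ceil_add_one h, Nat.add_sub_cancel]
  · have h1 : ⌈g⌉₊ = 0 := Nat.ceil_eq_zero.2 h.le
    have h2 : ⌈g + 1⌉₊ ≤ 1 := Nat.ceil_le.2 (by push_cast; linarith)
    omega

lemma N_eq (b : ℕ) (β : ℝ) (n : ℕ) :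
    N b β n = Pool.Agent.H447R2.ML.cc (fun p x => x * ((b : ℝ) ^ p + 0) + 1) β n := by
  unfold N W Pool.Agent.H447R2.ML.cc
  congr 1
  refine Finset.filter_congr fun p _ => and_congr_right fun _ => ?_
  beta_reduce
  rw [add_zero, ceil_shift]
  rfl

lemma main {b : ℕ} (hb : 2 ≤ b) :
    (∀ s t : ℝ, s < t → Tendsto (fun n : ℕ =>
        (∫ u in s..t, (Pool.Agent.H447R2.ML.cc
          (fun p x => x * ((b : ℝ) ^ p + 0) + 1) (Real.exp u) n : ℝ)) /
          ((t - s) * Real.log n)) atTop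
        (𝓝 (Real.exp Real.eulerMascheroniConstant / Real.log b))) ∧
    (∀ᵐ β : ℝ, 0 < β →
      (∀ c : ℝ, c < Real.exp Real.eulerMascheroniConstant / Real.log b →
        ∃ᶠ n : ℕ in atTop, c * Real.log n < Pool.Agent.H447R2.ML.cc
          (fun p x => x * ((b : ℝ) ^ p + 0) + 1) β n) ∧
      (∀ c : ℝ, Real.exp Real.eulerMascheroniConstant / Real.log b < c →
        ∃ᶠ n : ℕ in atTop, (Pool.Agent.H447R2.ML.cc
          (fun p x => x * ((b : ℝ) ^ p + 0) + 1) β n : ℝ) < c * Real.log n)) :=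
  Pool.Agent.H473R4.gen_shift (α := (b : ℝ)) (κ := 1) (C := 1)
    (show (1 : ℝ) < b by exact_mod_cast hb) zero_le_one
    (show (1 : ℝ) < b by exact_mod_cast hb) (d := fun _ => 0) (h := fun _ => 1)
    (fun p => by simp) (fun p => by simp)

/-- The integer `(b ^ p + 1) / (b + 1)`. -/
lemma special {b : ℕ} (hb : 2 ≤ b) {p : ℕ} (hp : p.Prime) (hp2 : p ≠ 2) (hpd : ¬ p ∣ b + 1) :
    W b (1 / ((b : ℝ) + 1)) p * (b + 1) = b ^ p + 1 := by
  have hodd : Odd p := hp.odd_of_ne_two hp2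
  obtain ⟨M, hM⟩ : b + 1 ∣ b ^ p + 1 := by
    have := hodd.nat_add_dvd_pow_add_pow b 1
    rwa [one_pow] at this
  have hMr : ((M : ℝ)) * (b + 1) = (b : ℝ) ^ p + 1 := by
    have : ((b : ℝ) ^ p + 1) = (((b ^ p + 1 : ℕ)) : ℝ) := by push_cast; ring
    rw [this, hM]
    push_cast; ring
  have hb0 : (0 : ℝ) < (b : ℝ) + 1 := by positivity
  have hb2 : (2 : ℝ) ≤ b := by exact_mod_cast hb
  have hceil : ⌈1 / ((b : ℝ) + 1) * (b : ℝ) ^ p⌉₊ = M := by
    have hM0 : M ≠ 0 := by
      rintro rfl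
      simp at hM
    rw [Nat.ceil_eq_iff hM0]
    have e : 1 / ((b : ℝ) + 1) * (b : ℝ) ^ p = M - 1 / ((b : ℝ) + 1) := by
      field_simp
      linarith
    rw [e]
    have h1 : 1 / ((b : ℝ) + 1) < 1 := by
      rw [div_lt_one hb0]; linarith
    have h2 : 0 < 1 / ((b : ℝ) + 1) := by positivity
    constructor
    · have : ((M - 1 : ℕ) : ℝ) = M - 1 := by
        rw [Nat.cast_sub (Nat.one_le_iff_ne_zero.2 hM0)]; simp
      rw [this]
      linarith
    · linarith
  have hr := Pool.Agent.H447R2.ML.rough_quot (a := (b : ℤ)) (b := -1)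
    (IsCoprime.neg_right isCoprime_one_right) (by omega) (by omega) hp
    (by
      intro h
      apply hpd
      have : ((p : ℕ) : ℤ) ∣ ((b + 1 : ℕ) : ℤ) := by push_cast; simpa using h
      exact_mod_cast this) (x := (M : ℝ)) (by
        push_cast
        rw [hodd.neg_one_pow]
        have hne : (b : ℝ) - -1 ≠ 0 := by linarith
        field_simp
        linarith)
  rw [Nat.floor_natCast] at hr
  have hgeom : (∑ i ∈ Finset.range p, (b : ℤ) ^ i * (-1) ^ (p - 1 - i)) * ((b : ℤ) - -1) =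
      (b : ℤ) ^ p - (-1) ^ p := (Commute.all (b : ℤ) (-1)).geom_sum₂_mul p
  rw [← hr, hodd.neg_one_pow] at hgeom
  unfold W
  rw [hceil]
  have h4 : ((roughPart p M : ℕ) : ℤ) * ((b : ℤ) + 1) = (b : ℤ) ^ p + 1 := by
    have h5 : (roughPart p M : ℤ) = (Pool.Agent.H305R2.roughPart p M : ℤ) := rfl
    rw [h5]
    linarith
  exact_mod_cast h4

theorem result :
    -- the generalized Wagstaff numbers are the values at the amplitude `1 / (b + 1)`
    (∀ b : ℕ, 2 ≤ b → ∀ p : ℕ, p.Prime → p ≠ 2 → ¬ p ∣ b + 1 →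
      W b (1 / ((b : ℝ) + 1)) p * (b + 1) = b ^ p + 1) ∧
    (∀ b : ℕ, 2 ≤ b → ({n : ℕ | Odd n ∧ ((b ^ n + 1) / (b + 1)).Prime}.Infinite ↔
      Tendsto (N b (1 / ((b : ℝ) + 1))) atTop atTop)) ∧
    -- mean values over every window of amplitudes
    (∀ b : ℕ, 2 ≤ b → ∀ s t : ℝ, s < t → Tendsto (fun n : ℕ =>
      (∫ u in s..t, (N b (Real.exp u) n : ℝ)) / ((t - s) * Real.log n)) atTop
      (𝓝 (Real.exp Real.eulerMascheroniConstant / Real.log b))) ∧
    -- almost every amplitude, all bases at once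
    (∀ᵐ β : ℝ, 0 < β → ∀ b : ℕ, 2 ≤ b →
      (∀ c : ℝ, c < Real.exp Real.eulerMascheroniConstant / Real.log b →
        ∃ᶠ n : ℕ in atTop, c * Real.log n < N b β n) ∧
      (∀ c : ℝ, Real.exp Real.eulerMascheroniConstant / Real.log b < c →
        ∃ᶠ n : ℕ in atTop, (N b β n : ℝ) < c * Real.log n)) := by
  refine ⟨fun b hb p hp hp2 hpd => special hb hp hp2 hpd, fun b hb => ?_, fun b hb s t hst => ?_, ?_⟩
  · have h1 : {n : ℕ | Odd n ∧ ((b ^ n + 1) / (b + 1)).Prime}.Infinite ↔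
        {p : ℕ | p.Prime ∧ (p ≠ 2 ∧ ((b ^ p + 1) / (b + 1)).Prime)}.Infinite := by
      have e : {n : ℕ | Odd n ∧ ((b ^ n + 1) / (b + 1)).Prime} =
          {p : ℕ | p.Prime ∧ (p ≠ 2 ∧ ((b ^ p + 1) / (b + 1)).Prime)} := by
        ext n
        constructor
        · rintro ⟨h1, h2⟩
          refine ⟨Pool.Agent.H473R4.wagstaff_prime_index hb h1 h2, ?_, h2⟩
          rintro rfl
          exact absurd h1 (by decide)
        · rintro ⟨h1, h2, h3⟩
          exact ⟨h1.odd_of_ne_two h2, h3⟩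
      rw [e]
    rw [h1]
    refine Pool.Agent.H473R4.tendsto_iff (W b (1 / ((b : ℝ) + 1))) _ (b + 2) fun p hp hpb => ?_
    have hp2 : p ≠ 2 := by omega
    have hpd : ¬ p ∣ b + 1 := fun h => by
      have := Nat.le_of_dvd (by omega) h
      omega
    have h2 : (b ^ p + 1) / (b + 1) = W b (1 / ((b : ℝ) + 1)) p := by
      rw [← special hb hp hp2 hpd, Nat.mul_div_cancel _ (by omega)]
    rw [h2]
    exact ⟨fun h => ⟨hp2, h⟩, fun h => h.2⟩
  · simp only [N_eq]
    exact (main hb).1 s t hst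
  · have h1 : ∀ᵐ β : ℝ, ∀ b : ℕ, 2 ≤ b → 0 < β →
      (∀ c : ℝ, c < Real.exp Real.eulerMascheroniConstant / Real.log b →
        ∃ᶠ n : ℕ in atTop, c * Real.log n < N b β n) ∧
      (∀ c : ℝ, Real.exp Real.eulerMascheroniConstant / Real.log b < c →
        ∃ᶠ n : ℕ in atTop, (N b β n : ℝ) < c * Real.log n) := by
      rw [ae_all_iff]
      intro b
      by_cases hb : 2 ≤ b
      · filter_upwards [(main hb).2] with β hβ _ h0
        simp only [N_eq]
        exact hβ h0
      · exact Eventually.of_forall fun β h => absurd h hb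
    filter_upwards [h1] with β hβ h0 b hb
    exact hβ b hb h0

end Pool.Agent.Results.MP_ce8d0c_nt.AlmostEveryAmplitude
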