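import Mathlib
import Pool.Agent.H447R2.ML.P9
import Pool.Agent.H447R2.ML.Spec
import Pool.Agent.H473R4.Count

set_option autoImplicit false

/-!
# Generalized Wagstaff numbers in almost every real base

For a real base `x > 1` and a prime `p` let `W x p` be the `p`-rough part (the product, with
multiplicity, of the prime factors larger than `p`) of the integer part of
`Q(x, p) = (x ^ p + 1) / (x + 1)`, and let `N x n` be the number of primes `p ≤ n` with `W x p`
prime.  For an integer `b ≥ 2` and an odd prime `p` not dividing `b + 1` the number `W b p` is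
`Q(b, p)` itself, and infinitely many of the `Q(b, n)`, `n` odd, are prime exactly when
`N b n → ∞`.  We prove that for almost every real `x > 1` we have
`liminf N x n / log n ≤ e ^ γ / log x ≤ limsup N x n / log n`.
-/

namespace Pool.Agent.Results.MP_ce8d0c_nt.RealBase

open Filter Topology MeasureTheory

/-- The product, with multiplicity, of the prime factors of `m` that are larger than `p`. -/
def roughPart (p m : ℕ) : ℕ := (m.primeFactorsList.filter (fun r => p < r)).prod

/-- The `p`-rough part of the integer part of `(x ^ p + 1) / (x + 1)`. -/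
noncomputable def W (x : ℝ) (p : ℕ) : ℕ := roughPart p ⌊(x ^ p + 1) / (x + 1)⌋₊

/-- The number of primes `p ≤ n` for which `W x p` is prime. -/
noncomputable def N (x : ℝ) (n : ℕ) : ℕ :=
  ((Finset.range (n + 1)).filter (fun p => p.Prime ∧ (W x p).Prime)).card

/-- The special points: at an integer base `b` the number `W b p` is `(b ^ p + 1) / (b + 1)`. -/
lemma special {b : ℕ} (hb : 2 ≤ b) {p : ℕ} (hp : p.Prime) (hp2 : p ≠ 2) (hpd : ¬ p ∣ b + 1) :
    W b p * (b + 1) = b ^ p + 1 := by
  have hodd : Odd p := hp.odd_of_ne_two hp2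
  have hb2 : (2 : ℝ) ≤ b := by exact_mod_cast hb
  have hr := Pool.Agent.H447R2.ML.rough_quot (a := (b : ℤ)) (b := -1)
    (IsCoprime.neg_right isCoprime_one_right) (by omega) (by omega) hp
    (by
      intro h
      apply hpd
      have : ((p : ℕ) : ℤ) ∣ ((b + 1 : ℕ) : ℤ) := by push_cast; simpa using h
      exact_mod_cast this) (x := ((b : ℝ) ^ p + 1) / ((b : ℝ) + 1)) (by
        push_cast
        rw [hodd.neg_one_pow]
        have hne : (b : ℝ) - -1 ≠ 0 := by linarith
        have hne' : (b : ℝ) + 1 ≠ 0 := by linarith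
        rw [sub_neg_eq_add]
        field_simp
        ring)
  have hgeom : (∑ i ∈ Finset.range p, (b : ℤ) ^ i * (-1) ^ (p - 1 - i)) * ((b : ℤ) - -1) =
      (b : ℤ) ^ p - (-1) ^ p := (Commute.all (b : ℤ) (-1)).geom_sum₂_mul p
  rw [← hr, hodd.neg_one_pow] at hgeom
  have h4 : ((W b p : ℕ) : ℤ) * ((b : ℤ) + 1) = (b : ℤ) ^ p + 1 := by
    have h5 : ((W b p : ℕ) : ℤ) =
      ((Pool.Agent.H305R2.roughPart p ⌊((b : ℝ) ^ p + 1) / ((b : ℝ) + 1)⌋₊ : ℕ) : ℤ) := rfl
    rw [h5]
    linarith
  exact_mod_cast h4

theorem result :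
    -- the generalized Wagstaff numbers are the values at the integers
    (∀ b : ℕ, 2 ≤ b → ∀ p : ℕ, p.Prime → p ≠ 2 → ¬ p ∣ b + 1 → W b p * (b + 1) = b ^ p + 1) ∧
    (∀ b : ℕ, 2 ≤ b → ({n : ℕ | Odd n ∧ ((b ^ n + 1) / (b + 1)).Prime}.Infinite ↔
      Tendsto (N b) atTop atTop)) ∧
    -- almost every real base
    (∀ᵐ x : ℝ, 1 < x →
      (∀ c : ℝ, c < Real.exp Real.eulerMascheroniConstant / Real.log x →
        ∃ᶠ n : ℕ in atTop, c * Real.log n < N x n) ∧
      (∀ c : ℝ, Real.exp Real.eulerMascheroniConstant / Real.log x < c →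
        ∃ᶠ n : ℕ in atTop, (N x n : ℝ) < c * Real.log n)) := by
  refine ⟨fun b hb p hp hp2 hpd => special hb hp hp2 hpd, fun b hb => ?_, ?_⟩
  · have h1 : {n : ℕ | Odd n ∧ ((b ^ n + 1) / (b + 1)).Prime}.Infinite ↔
        {p : ℕ | p.Prime ∧ (p ≠ 2 ∧ ((b ^ p + 1) / (b + 1)).Prime)}.Infinite := by
      have e : {n : ℕ | Odd n ∧ ((b ^ n + 1) / (b + 1)).Prime} =
          {p : ℕ | p.Prime ∧ (p ≠ 2 ∧ ((b ^ p + 1) / (b + 1)).Prime)} := by
        ext n
        constructor
        · rintro ⟨h1, h2⟩
          refine ⟨Pool.Agent.H473R4.wagstaff_prime_index hb h1 h2, ?_, h2⟩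
          rintro rfl
          exact absurd h1 (by decide)
        · rintro ⟨h1, h2, h3⟩
          exact ⟨h1.odd_of_ne_two h2, h3⟩
      rw [e]
    rw [h1]
    refine Pool.Agent.H473R4.tendsto_iff (W b) _ (b + 2) fun p hp hpb => ?_
    have hp2 : p ≠ 2 := by omega
    have hpd : ¬ p ∣ b + 1 := fun h => by
      have := Nat.le_of_dvd (by omega) h
      omega
    have h2 : (b ^ p + 1) / (b + 1) = W b p := by
      rw [← special hb hp hp2 hpd, Nat.mul_div_cancel _ (by omega)]
    rw [h2]
    exact ⟨fun h => ⟨hp2, h⟩, fun h => h.2⟩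
  · have h := Pool.Agent.H447R2.ML.one_param_val (val := fun p x => (x ^ p + 1) / (x + 1))
      (y' := fun p t => p * Real.exp (p * t) / (Real.exp (p * t) + 1) +
        (-(Real.exp t / (Real.exp t + 1))))
      (fun p => ((measurable_id.pow_const p).add_const 1).div (measurable_id.add_const 1))
      (fun p _ x hx => by
        have : 0 < x ^ p := pow_pos (by linarith) p
        exact div_pos (by linarith) (by linarith))
      (Pool.Agent.H447R2.ML.fam_of (ε := 1) (by norm_num)
        (H := fun t => -Real.log (Real.exp t + 1)) (H' := fun t => -(Real.exp t / (Real.exp t + 1)))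
        (fun t _ => by
          have h1 : Real.exp t + 1 ≠ 0 := by
            have := Real.exp_pos t
            linarith
          exact (((Real.hasDerivAt_exp t).add_const 1).log h1).neg)
        (by
          refine ContinuousOn.neg (ContinuousOn.div Real.continuous_exp.continuousOn
            (Real.continuous_exp.continuousOn.add continuousOn_const) fun t _ => ?_)
          have := Real.exp_pos t
          linarith)
        (fun p _ t _ => by
          have h1 := Real.exp_pos t
          have h2 : 0 < Real.exp t ^ p := pow_pos h1 p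
          rw [Real.log_div (by linarith) (by linarith), Real.exp_nat_mul, ← sub_eq_add_neg]))
    filter_upwards [h] with x hx h1
    exact hx h1

end Pool.Agent.Results.MP_ce8d0c_nt.RealBase
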